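import Mathlib

set_option autoImplicit false

namespace Pool.Agent.Results.MP_fa43b0_al.Sym

universe u

/-- Lattice terms in the variables indexed by `Fin n`. -/
inductive Tm (n : ℕ) : Type
  | var (i : Fin n)
  | inf (p q : Tm n)
  | sup (p q : Tm n)

/-- The value of a term under an assignment. -/
def Tm.ev {n : ℕ} {L : Type u} [Lattice L] (v : Fin n → L) : Tm n → L
  | .var i => v i
  | .inf p q => p.ev v ⊓ q.ev v
  | .sup p q => p.ev v ⊔ q.ev v

/-- Renaming of the variables. -/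
def Tm.map {n m : ℕ} (f : Fin n → Fin m) : Tm n → Tm m
  | .var i => .var (f i)
  | .inf p q => .inf (p.map f) (q.map f)
  | .sup p q => .sup (p.map f) (q.map f)

/-- The lattice `L` satisfies the identity. -/
def Holds (L : Type u) [Lattice L] {n : ℕ} (t s : Tm n) : Prop :=
  ∀ v : Fin n → L, t.ev v = s.ev v

/-- Symmetric terms: equal to each of their permuted copies in every lattice. -/
def Symmetric {n : ℕ} (t : Tm n) : Prop :=
  ∀ (σ : Equiv.Perm (Fin n)) (K : Type u) [Lattice K], Holds K t (t.map σ)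

/-- `L` belongs to the variety defined by the set of identities `E`. -/
def Models (E : Set (Σ n : ℕ, Tm n × Tm n)) (L : Type u) [Lattice L] : Prop :=
  ∀ e ∈ E, Holds L e.2.1 e.2.2

variable {n m : ℕ} {L : Type u} [Lattice L]

theorem ev_map (f : Fin n → Fin m) (v : Fin m → L) (t : Tm n) : (t.map f).ev v = t.ev (v ∘ f) := by
  induction t with
  | var i => rfl
  | inf p q a b => simp [Tm.map, Tm.ev, a, b]
  | sup p q a b => simp [Tm.map, Tm.ev, a, b]

theorem ev_mono {v w : Fin n → L} (h : v ≤ w) (t : Tm n) : t.ev v ≤ t.ev w := by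
  induction t with
  | var i => exact h i
  | inf p q a b => exact inf_le_inf a b
  | sup p q a b => exact sup_le_sup a b

theorem le_foldr (a : Tm n) (l : List (Tm n)) (v : Fin n → L) (x : L) :
    x ≤ (l.foldr .inf a).ev v ↔ x ≤ a.ev v ∧ ∀ b ∈ l, x ≤ b.ev v := by
  induction l with
  | nil => simp
  | cons b l ih => simp [Tm.ev, ih, and_left_comm]

theorem foldr_le (a : Tm n) (l : List (Tm n)) (v : Fin n → L) (x : L) :
    (l.foldr .sup a).ev v ≤ x ↔ a.ev v ≤ x ∧ ∀ b ∈ l, b.ev v ≤ x := by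
  induction l with
  | nil => simp
  | cons b l ih => simp [Tm.ev, ih, and_left_comm]

theorem foldr_mem (a : Tm n) (l : List (Tm n)) (v : Fin n → L) {M : Set L} (hM : SupClosed M)
    (ha : a.ev v ∈ M) (hl : ∀ b ∈ l, b.ev v ∈ M) : (l.foldr .sup a).ev v ∈ M := by
  induction l with
  | nil => exact ha
  | cons b l ih => exact hM (hl b (by simp)) (ih fun c hc => hl c (by simp [hc]))

noncomputable def sm (w : Tm n) : Tm n :=
  ((Finset.univ : Finset (Equiv.Perm (Fin n))).toList.map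
    fun σ : Equiv.Perm (Fin n) => w.map σ).foldr .inf w

theorem le_sm (w : Tm n) (v : Fin n → L) (x : L) :
    x ≤ (sm w).ev v ↔ ∀ σ : Equiv.Perm (Fin n), x ≤ w.ev (v ∘ σ) := by
  rw [sm, le_foldr]
  constructor
  · intro h σ
    rw [← ev_map]
    exact h.2 _ (List.mem_map.2 ⟨σ, by simp, rfl⟩)
  · refine fun h => ⟨h 1, fun b hb => ?_⟩
    obtain ⟨σ, -, rfl⟩ := List.mem_map.1 hb
    rw [ev_map]
    exact h σ

theorem sm_symm (w : Tm n) : Symmetric.{u} (sm w) := by
  intro ρ K _ v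
  refine eq_of_forall_le_iff fun x => ?_
  rw [ev_map, le_sm, le_sm]
  refine ⟨fun h σ => h (ρ * σ), fun h σ => ?_⟩
  convert h (ρ⁻¹ * σ) using 2
  ext i
  simp

theorem majority (σ : Equiv.Perm (Fin (n + (n + 1)))) :
    ∃ k k', σ (Fin.natAdd n k) = Fin.natAdd n k' := by
  by_contra h
  have h1 : ∀ k, ∃ i, σ (Fin.natAdd n k) = Fin.castAdd (n + 1) i := by
    intro k
    revert h
    refine Fin.addCases (motive := fun j => σ (Fin.natAdd n k) = j → _) (fun i e _ => ⟨i, e⟩)
      (fun i e h => absurd ⟨k, i, e⟩ h) _ rfl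
  choose f hf using h1
  have := Fintype.card_le_of_injective f fun a b e => by
    have := hf a
    rw [e, ← hf b] at this
    exact Fin.natAdd_injective _ _ (σ.injective this)
  simp at this

theorem key (t s : Tm n) (a : Fin n → L) (h : ¬ t.ev a ≤ s.ev a) :
    ∃ (m : ℕ) (T S : Tm m), Symmetric.{u} T ∧ Symmetric.{u} S ∧
      (∀ (K : Type u) [Lattice K], Holds K t s → Holds K T S) ∧ ¬ Holds L T S := by
  obtain ⟨M, m0, ⟨m1, m2, m3⟩, m4⟩ := zorn_subset_nonempty
    {M : Set L | IsLowerSet M ∧ SupClosed M ∧ t.ev a ∉ M} (fun c hc hch _ => by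
      refine ⟨⋃₀ c, ⟨isLowerSet_sUnion fun M hM => (hc hM).1, ?_, ?_⟩,
        fun M hM => Set.subset_sUnion_of_mem hM⟩
      · rintro x ⟨A, hA, hx⟩ y ⟨B, hB, hy⟩
        rcases hch.total hA hB with e | e
        · exact ⟨B, hB, (hc hB).2.1 (e hx) hy⟩
        · exact ⟨A, hA, (hc hA).2.1 hx (e hy)⟩
      · rintro ⟨A, hA, hx⟩
        exact (hc hA).2.2 hx) (Set.Iic (s.ev a))
    ⟨isLowerSet_Iic _, fun x hx y hy => sup_le hx hy, h⟩
  have hq : s.ev a ∈ M := m0 le_rfl
  let C : Set (Fin (n + (n + 1)) → L) :=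
    {v | (∀ i, v (Fin.castAdd _ i) ≤ a i) ∧ ∀ k, v (Fin.natAdd n k) ∈ M}
  have hC : SupClosed C := fun v hv w hw =>
    ⟨fun i => sup_le (hv.1 i) (hw.1 i), fun k => m2 (hv.2 k) (hw.2 k)⟩
  have v0 : ∀ x ∈ M, Fin.append a (fun _ => x) ∈ C := fun x hx =>
    ⟨fun i => by simp, fun k => by simpa using hx⟩
  let P : Equiv.Perm (Fin (n + (n + 1))) → Tm (n + (n + 1)) → Prop :=
    fun τ u => ∀ v ∈ C, u.ev (v ∘ τ) ∈ M
  let t' : Tm (n + (n + 1)) := t.map (Fin.castAdd _)
  let s' : Tm (n + (n + 1)) := s.map (Fin.castAdd _)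
  have ps : P 1 s' := fun v hv => by
    rw [ev_map]
    exact m1 (ev_mono (fun i => hv.1 i) s) hq
  have pt : ¬ P 1 t' := fun hp => by
    have := hp _ (v0 _ hq)
    rw [ev_map] at this
    refine m3 (by convert this using 2; ext i; simp)
  have hu : ∀ σ, ∃ u, P 1 u ∧ ¬ P σ (.sup u t') := by
    intro σ
    by_contra hn
    push Not at hn
    have h1 : ∀ u, P 1 u → P σ u := fun u hu v hv => m1 le_sup_left (hn u hu v hv)
    have h2 : P σ t' := fun v hv => m1 le_sup_right (hn s' ps v hv)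
    have h3 : ∀ k : ℕ, P (σ ^ k * σ) t' := by
      intro k
      induction k with
      | zero => simpa using h2
      | succ k ih =>
        intro v hv
        have := h1 (t'.map (σ ^ k * σ : Equiv.Perm _)) (fun v hv => by
          rw [ev_map]; exact ih v hv) v hv
        rw [ev_map] at this
        rw [pow_succ', mul_assoc]
        exact this
    have := h3 (orderOf σ - 1)
    rw [← pow_succ, Nat.sub_add_cancel (orderOf_pos σ), pow_orderOf_eq_one] at this
    exact pt this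
  choose U u1 u2 using hu
  let w : Tm (n + (n + 1)) := ((List.ofFn fun k => Tm.var (Fin.natAdd n k)) ++
    (Finset.univ : Finset (Equiv.Perm (Fin (n + (n + 1))))).toList.map U).foldr .sup s'
  have hw : ∀ (K : Type u) [Lattice K] (v : Fin (n + (n + 1)) → K), s'.ev v ≤ w.ev v ∧
      (∀ k, v (Fin.natAdd n k) ≤ w.ev v) ∧ ∀ σ, (U σ).ev v ≤ w.ev v := by
    intro K _ v
    obtain ⟨a, b⟩ := (foldr_le _ _ v (w.ev v)).1 le_rfl
    exact ⟨a, fun k => b (.var _) (List.mem_append_left _ (List.mem_ofFn.2 ⟨k, rfl⟩)),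
      fun σ => b _ (List.mem_append_right _ (List.mem_map.2 ⟨σ, by simp, rfl⟩))⟩
  have pw : P 1 w := fun v hv => foldr_mem _ _ _ m2 (ps v hv) fun b hb => by
    rcases List.mem_append.1 hb with hb | hb
    · obtain ⟨k, rfl⟩ := List.mem_ofFn.1 hb
      exact hv.2 k
    · obtain ⟨σ, -, rfl⟩ := List.mem_map.1 hb
      exact u1 σ v hv
  refine ⟨_, sm w, sm (.sup w t'), sm_symm _, sm_symm _, fun K _ hK v => ?_, fun hL => ?_⟩
  · refine eq_of_forall_le_iff fun x => ?_
    rw [le_sm, le_sm]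
    refine forall_congr' fun σ => ?_
    have : t'.ev (v ∘ σ) ≤ w.ev (v ∘ σ) := by
      refine le_trans (le_of_eq ?_) (hw K _).1
      rw [ev_map, ev_map, hK]
    rw [Tm.ev, sup_eq_left.2 this]
  · have h1 : ∀ σ : Equiv.Perm (Fin (n + (n + 1))), ∃ v ∈ C,
        t.ev a ≤ (Tm.sup w t').ev (v ∘ σ) := by
      intro σ
      by_contra hn
      have := m4 (y := {x | ∃ v ∈ C, x ≤ (Tm.sup w t').ev (v ∘ σ)})
        ⟨fun x y hxy ⟨v, hv, e⟩ => ⟨v, hv, hxy.trans e⟩,
          fun x ⟨v, hv, e⟩ y ⟨v', hv', e'⟩ => ⟨v ⊔ v', hC hv hv', sup_le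
            (e.trans (ev_mono (fun i => le_sup_left) _))
            (e'.trans (ev_mono (fun i => le_sup_right) _))⟩, hn⟩ (fun x hx => by
          obtain ⟨k, k', e⟩ := majority σ
          refine ⟨_, v0 x hx, le_trans ?_ (((hw L _).2.1 k).trans le_sup_left)⟩
          simp [e])
      exact u2 σ fun v hv => this ⟨v, hv, sup_le_sup ((hw L _).2.2 σ) le_rfl⟩
    choose V c1 c2 using h1
    have c3 := hC.finsetSup'_mem Finset.univ_nonempty fun σ _ => c1 σ
    have c4 : t.ev a ≤ (sm (.sup w t')).ev (Finset.univ.sup' Finset.univ_nonempty V) :=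
      (le_sm _ _ _).2 fun σ => (c2 σ).trans (ev_mono
        (fun i => Finset.le_sup' V (Finset.mem_univ σ) (σ i)) _)
    rw [← hL, le_sm] at c4
    exact m3 (m1 (c4 1) (pw _ c3))

theorem result (E : Set (Σ n : ℕ, Tm n × Tm n)) (L : Type u) [Lattice L] :
    Models E L ↔ ∀ (n : ℕ) (t s : Tm n), Symmetric.{u} t → Symmetric.{u} s →
      (∀ (K : Type u) [Lattice K], Models E K → Holds K t s) → Holds L t s := by
  refine ⟨fun h n t s _ _ hK => hK L h, fun h e he a => ?_⟩
  by_contra hn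
  rcases not_and_or.1 (mt le_antisymm_iff.2 hn) with h1 | h1
  · obtain ⟨m, T, S, a, b, c, d⟩ := key _ _ a h1
    exact d (h m T S a b fun K _ hK => c K (hK e he))
  · obtain ⟨m, T, S, a, b, c, d⟩ := key _ _ a h1
    exact d (h m T S a b fun K _ hK => c K fun v => (hK e he v).symm)

end Pool.Agent.Results.MP_fa43b0_al.Sym
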